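import Pool.Agent.Helper31.TW.St1

set_option autoImplicit false

namespace Pool.Agent.Helper73.TW

open Symbol Pool.Agent.Helper22.FL Pool.Agent.Helper22.CS Pool.Agent.Helper15.TS
open Pool.Agent.Helper31.TW

variable {T N : Type} {R : Set (ContextFreeRule T N)}

theorem sts_tail {X : N} {a : Symbol T N} {α : List (Symbol T N)} (h : a :: α ∈ Sts R X) :
    α ∈ Sts R X := by
  rcases h with h | h | h
  · right
    left
    exact (List.cons.inj h).2
  · exact absurd h (List.cons_ne_nil _ _)
  · right
    right
    obtain ⟨r, hr, hs⟩ := Set.mem_iUnion₂.1 h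
    exact Set.mem_iUnion₂.2 ⟨r, hr, (List.suffix_cons a α).trans hs⟩

theorem sts_out {X : N} {r : ContextFreeRule T N} (hr : r ∈ R) : r.output ∈ Sts R X := by
  right
  right
  exact Set.mem_iUnion₂.2 ⟨r, hr, List.suffix_rfl⟩

theorem sts_fin (X : N) (hR : R.Finite) : (Sts R X).Finite := by
  refine Set.Finite.insert _ (Set.Finite.insert _ (Set.Finite.biUnion hR fun r _ => ?_))
  refine (List.finite_toSet r.output.tails).subset fun α hα => ?_
  exact (List.mem_tails _ _).2 hα

theorem du_ex {α : List (Symbol T N)} {w : List T} (h : Der R α w) : ∃ U, DU R U α w := by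
  induction h with
  | nil => exact ⟨_, .nil⟩
  | term t _ ih =>
    obtain ⟨U, hU⟩ := ih
    exact ⟨_, .term t hU⟩
  | nonterm hr _ _ ih1 ih2 =>
    obtain ⟨U, hU⟩ := ih1
    obtain ⟨V, hV⟩ := ih2
    exact ⟨_, .nonterm hr hU hV⟩

theorem du_der {U : Set (List (Symbol T N))} {α : List (Symbol T N)} {w : List T}
    (h : DU R U α w) : Der R α w := by
  induction h with
  | nil => exact .nil
  | term t _ ih => exact .term t ih
  | nonterm hr _ _ ih1 ih2 => exact .nonterm hr ih1 ih2

theorem du_sub (X : N) {U : Set (List (Symbol T N))} {α : List (Symbol T N)} {w : List T}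
    (h : DU R U α w) : α ∈ Sts R X → U ⊆ Sts R X := by
  induction h with
  | nil =>
    intro h β hβ
    rw [Set.mem_singleton_iff] at hβ
    rw [hβ]
    exact h
  | term t _ ih =>
    intro h
    exact Set.insert_subset h (ih (sts_tail h))
  | nonterm hr _ _ ih1 ih2 =>
    intro h
    exact Set.insert_subset h (Set.union_subset (ih1 (sts_out hr)) (ih2 (sts_tail h)))

theorem du_mem {U : Set (List (Symbol T N))} {α : List (Symbol T N)} {w : List T}
    (h : DU R U α w) : α ∈ U := by
  cases h with
  | nil => exact rfl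
  | term t _ => exact Set.mem_insert _ _
  | nonterm hr _ _ => exact Set.mem_insert _ _

theorem ru_refl (α : List (Symbol T N)) : RU R ∅ α [] [] α := by
  intro U x hx
  rw [Set.empty_union, List.nil_append, List.append_nil]
  exact hx

theorem du_split {U : Set (List (Symbol T N))} {α : List (Symbol T N)} {w : List T}
    (h : DU R U α w) : ∀ β ∈ U, ∃ W U' u x z,
    w = u ++ x ++ z ∧ U = W ∪ U' ∧ RU R W α u z β ∧ DU R U' β x := by
  induction h with
  | nil =>
    intro β hβ
    rw [Set.mem_singleton_iff] at hβ
    subst hβ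
    exact ⟨∅, _, [], [], [], rfl, (Set.empty_union _).symm, ru_refl _, .nil⟩
  | @term t U α w h ih =>
    intro β hβ
    rcases hβ with hβ | hβ
    · subst hβ
      exact ⟨∅, _, [], t :: w, [], by simp, (Set.empty_union _).symm, ru_refl _, .term t h⟩
    · obtain ⟨W, U', u, x, z, hw, hU, hr, hd⟩ := ih β hβ
      refine ⟨insert (terminal t :: α) W, U', t :: u, x, z, by rw [hw]; rfl, ?_, ?_, hd⟩
      · rw [hU, Set.insert_union]
      · intro U'' y hy
        have h1 := DU.term t (hr U'' y hy)
        rw [Set.insert_union]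
        exact h1
  | @nonterm r U V α u w hr h1 h2 ih1 ih2 =>
    intro β hβ
    rcases hβ with hβ | hβ | hβ
    · subst hβ
      exact ⟨∅, _, [], u ++ w, [], by simp, (Set.empty_union _).symm, ru_refl _,
        .nonterm hr h1 h2⟩
    · obtain ⟨W, U', u1, x, z, hw, hU, hru, hd⟩ := ih1 β hβ
      refine ⟨insert (nonterminal r.input :: α) (W ∪ V), U', u1, x, z ++ w, ?_, ?_, ?_, hd⟩
      · rw [hw]
        simp [List.append_assoc]
      · rw [hU, Set.insert_union, Set.union_right_comm]
      · intro U'' y hy
        have h3 := DU.nonterm hr (hru U'' y hy) h2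
        rw [Set.insert_union, Set.union_right_comm, ← List.append_assoc]
        exact h3
    · obtain ⟨W, U', u1, x, z, hw, hU, hru, hd⟩ := ih2 β hβ
      refine ⟨insert (nonterminal r.input :: α) (U ∪ W), U', u ++ u1, x, z, ?_, ?_, ?_, hd⟩
      · rw [hw]
        simp [List.append_assoc]
      · rw [hU, Set.insert_union, Set.union_assoc]
      · intro U'' y hy
        have h3 := DU.nonterm hr h1 (hru U'' y hy)
        rw [Set.insert_union, Set.union_assoc]
        have h4 : u ++ u1 ++ y ++ z = u ++ (u1 ++ y ++ z) := by simp [List.append_assoc]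
        rw [h4]
        exact h3

theorem hDUB : StDUB := by
  intro T N R
  exact ⟨fun α w h => du_ex h, fun U α w h => du_der h, fun X U α w h => du_sub X h,
    fun U α w h => du_mem h, fun U α β w h hβ => du_split h β hβ, fun X hR => sts_fin X hR⟩

end Pool.Agent.Helper73.TW
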