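import Pool.Agent.Helper54.PT.DefsD

/-!
# MP_1d384c_nt : module C24, squarefree polynomials and finite sets of primes
-/

set_option autoImplicit false

namespace Pool.Agent.Helper73.TWC24

open Polynomial Finset Pool.Agent.Helper54.PT

variable {F : Type} [Field F]

theorem prm_eq_of_dvd (P Q : Prm F) (h : P.1 ∣ Q.1) : P = Q := by
  apply Subtype.ext
  exact eq_of_monic_of_associated P.2.1 Q.2.1
    ((P.2.2.dvd_irreducible_iff_associated Q.2.2).1 h)

theorem dvd_prod_iff (D : Finset (Prm F)) (P : Prm F) : P.1 ∣ ∏ Q ∈ D, Q.1 ↔ P ∈ D := by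
  constructor
  · intro h
    obtain ⟨Q, hQ, hPQ⟩ := (P.2.2.prime.dvd_finsetProd_iff _).1 h
    rw [prm_eq_of_dvd P Q hPQ]
    exact hQ
  · intro h
    exact Finset.dvd_prod_of_mem (fun Q : Prm F => Q.1) h

theorem coprime_of_ne {P Q : Prm F} (h : P ≠ Q) : IsCoprime P.1 Q.1 :=
  P.2.2.coprime_iff_not_dvd.2 fun h2 => h (prm_eq_of_dvd P Q h2)

theorem squarefree_prod (D : Finset (Prm F)) : Squarefree (∏ Q ∈ D, Q.1) := by
  classical
  induction D using Finset.induction_on with
  | empty => simp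
  | insert P D hP ih =>
    rw [Finset.prod_insert hP]
    have hc : IsCoprime P.1 (∏ Q ∈ D, Q.1) := by
      refine IsCoprime.prod_right fun Q hQ => coprime_of_ne ?_
      rintro rfl
      exact hP hQ
    exact (squarefree_mul_iff.2 ⟨hc.isRelPrime, P.2.2.squarefree, ih⟩)

theorem monic_prod (D : Finset (Prm F)) : (∏ Q ∈ D, Q.1).Monic :=
  monic_prod_of_monic _ _ fun Q _ => Q.2.1

theorem natDegree_prd (D : Finset (Prm F)) :
    (∏ Q ∈ D, Q.1).natDegree = ∑ Q ∈ D, Q.1.natDegree :=
  natDegree_prod_of_monic _ _ fun Q _ => Q.2.1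

/-- A monic squarefree polynomial is the product of its prime divisors. -/
theorem exists_prod_eq {f : F[X]} (hf : f.Monic) (hs : Squarefree f) :
    ∃ D : Finset (Prm F), ∏ Q ∈ D, Q.1 = f := by
  classical
  let S : Multiset F[X] := UniqueFactorizationMonoid.normalizedFactors f
  have hS : ∀ x ∈ S, x.Monic ∧ Irreducible x := by
    intro x hx
    have h1 := UniqueFactorizationMonoid.irreducible_of_normalized_factor x hx
    have h2 := UniqueFactorizationMonoid.normalize_normalized_factor x hx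
    refine ⟨?_, h1⟩
    rw [← h2]
    exact monic_normalize h1.ne_zero
  have hnd : S.Nodup :=
    (UniqueFactorizationMonoid.squarefree_iff_nodup_normalizedFactors hf.ne_zero).1 hs
  have hprod : S.prod = f := by
    rw [UniqueFactorizationMonoid.prod_normalizedFactors_eq hf.ne_zero]
    exact hf.normalize_eq_self
  let D : Finset (Prm F) := S.toFinset.attach.image fun x =>
    (⟨x.1, hS x.1 (Multiset.mem_toFinset.1 x.2)⟩ : Prm F)
  refine ⟨D, ?_⟩
  have h1 : ∏ Q ∈ D, Q.1 = ∏ x ∈ S.toFinset.attach, x.1 := by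
    refine (Finset.prod_image ?_).trans rfl
    intro x _ y _ hxy
    apply Subtype.ext
    exact congrArg (fun P : Prm F => P.1) hxy
  rw [h1, Finset.prod_attach S.toFinset (fun x => x)]
  rw [← hprod, Finset.prod_multiset_count_of_subset S S.toFinset (Finset.Subset.refl _)]
  refine Finset.prod_congr rfl fun x hx => ?_
  rw [Multiset.count_eq_one_of_mem hnd (Multiset.mem_toFinset.1 hx), pow_one]

end Pool.Agent.Helper73.TWC24

namespace Pool.Agent.Helper54.PT

open Polynomial Finset Filter Topology Module Pool.Agent.Helper47.BSD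

section Descent

variable {F : Type} [Field F] [Finite F] {ℓ : ℕ} [Fact ℓ.Prime] {ι : Type} [Fintype ι]
  [DecidableEq ι] {σ : Type} [Fintype σ] [DecidableEq σ] {a : ι → ℕ} {e : ι → F[X]}
  {R : σ → Prm F} {i₁ i₂ : σ → ι} {N : ℕ} {lg : F → ZMod ℓ}

open Pool.Agent.Helper73.TWC24 in
/-- C24: squarefree polynomials and finite sets of primes -/
theorem sqf_bij (hrec : ∀ P Q : Prm F, P ≠ Q → sy lg Q.1 P.1 = sy lg P.1 Q.1)
    (hS : Setup ℓ a e R i₁ i₂ N) (n : ℕ) :
    Set.BijOn (fun D : Finset (pd lg hrec R).P => ∏ P ∈ und lg hrec R D, P.1)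
      ((pd lg hrec R).sq n : Set (Finset (pd lg hrec R).P)) (sqf e n) := by
  have hmem : ∀ (D : Finset (pd lg hrec R).P) (P : (pd lg hrec R).P),
      P.1 ∈ und lg hrec R D ↔ P ∈ D := by
    intro D P
    unfold und
    rw [Finset.mem_map]
    constructor
    · rintro ⟨Q, hQ, hQP⟩
      have : Q = P := Subtype.ext hQP
      rwa [← this]
    · intro h
      exact ⟨P, h, rfl⟩
  have hdeg : ∀ D : Finset (pd lg hrec R).P,
      (∏ P ∈ und lg hrec R D, P.1).natDegree = (pd lg hrec R).dg D := by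
    intro D
    rw [natDegree_prd, und, Finset.sum_map]
    rfl
  refine ⟨?_, ?_, ?_⟩
  · intro D hD
    rw [mem_coe, PData.mem_sq] at hD
    refine ⟨monic_prod _, by rw [hdeg, hD], squarefree_prod _, ?_⟩
    intro i j hij
    rw [hS.fact i j hij]
    have hc : IsUnit (C ((e i).coeff N - (e j).coeff N)) :=
      isUnit_C.2 (sub_ne_zero.2 (hS.lead i j hij)).isUnit
    have h1 : IsCoprime (∏ P ∈ und lg hrec R D, P.1)
        (∏ r ∈ univ.filter (fun r => s(i₁ r, i₂ r) = s(i, j)), (R r).1) := by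
      refine IsCoprime.prod_left fun P hP => IsCoprime.prod_right fun r _ => coprime_of_ne ?_
      unfold und at hP
      rw [Finset.mem_map] at hP
      obtain ⟨Q, _, hQP⟩ := hP
      rw [← hQP]
      exact Q.2 r
    exact (isCoprime_mul_unit_left_right hc _ _).2 h1
  · intro D _ D' _ hDD'
    have h1 : ∀ P : Prm F, P ∈ und lg hrec R D ↔ P ∈ und lg hrec R D' := by
      intro P
      rw [← dvd_prod_iff, ← dvd_prod_iff]
      have : ∏ P ∈ und lg hrec R D, P.1 = ∏ P ∈ und lg hrec R D', P.1 := hDD'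
      rw [this]
    apply Finset.ext
    intro P
    rw [← hmem D P, ← hmem D' P]
    exact h1 P.1
  · intro f hf
    obtain ⟨hf1, hf2, hf3, hf4⟩ := hf
    obtain ⟨D', hD'⟩ := exists_prod_eq hf1 hf3
    have hR : ∀ P ∈ D', ∀ r, P ≠ R r := by
      intro P hP r hPr
      have h1 : P.1 ∣ f := by
        rw [← hD']
        exact (dvd_prod_iff D' P).2 hP
      have h2 : P.1 ∣ e (i₁ r) - e (i₂ r) := by
        rw [hS.fact _ _ (hS.ne r), hPr]
        refine Dvd.dvd.mul_left ?_ _
        exact Finset.dvd_prod_of_mem (fun r => (R r).1)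
          (Finset.mem_filter.2 ⟨Finset.mem_univ r, rfl⟩)
      exact P.2.2.not_isUnit ((hf4 _ _ (hS.ne r)).isUnit_of_dvd' h1 h2)
    classical
    let D : Finset (pd lg hrec R).P := D'.attach.image fun P =>
      (⟨P.1, hR P.1 P.2⟩ : {P : Prm F // ∀ r, P ≠ R r})
    have hD : und lg hrec R D = D' := by
      apply Finset.ext
      intro P
      unfold und
      rw [Finset.mem_map]
      constructor
      · rintro ⟨Q, hQ, hQP⟩
        obtain ⟨P', _, hP'⟩ := Finset.mem_image.1 hQ
        rw [← hQP, ← hP']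
        exact P'.2
      · intro h
        exact ⟨⟨P, hR P h⟩, Finset.mem_image.2 ⟨⟨P, h⟩, Finset.mem_attach _ _, rfl⟩, rfl⟩
    refine ⟨D, ?_, ?_⟩
    · rw [mem_coe, PData.mem_sq, ← hdeg, hD, hD', hf2]
    · show ∏ P ∈ und lg hrec R D, P.1 = f
      rw [hD, hD']

end Descent

end Pool.Agent.Helper54.PT
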