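import Pool.Agent.Helper54.PT.Defs

/-!
# MP_1d384c_nt : module B7 of the first moment, the assembly
-/

set_option autoImplicit false

namespace Pool.Agent.Helper73.TWB7

open Finset Filter Topology

/-- Powers of the binary logarithm are small. -/
theorem log_pow_lt (A K : ℕ) : ∃ n₁ : ℕ, ∀ n, n₁ ≤ n → (A * Nat.log 2 n) ^ K < n := by
  have h1 := (Real.isLittleO_pow_log_id_atTop (n := K)).comp_tendsto
    (tendsto_natCast_atTop_atTop (R := ℝ))
  have hlog2 : 0 < Real.log 2 := Real.log_pos (by norm_num)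
  set c : ℝ := ((A : ℝ) / Real.log 2) ^ K + 1 with hc
  have hcpos : 0 < c := by positivity
  have h2 := h1.def (show 0 < 1 / (2 * c) by positivity)
  obtain ⟨n₁, hn₁⟩ := eventually_atTop.1 h2
  refine ⟨max n₁ 1, fun n hn => ?_⟩
  have hn1 : n₁ ≤ n := (le_max_left _ _).trans hn
  have hn2 : 1 ≤ n := (le_max_right _ _).trans hn
  have hnpos : (0 : ℝ) < (n : ℝ) := by exact_mod_cast hn2
  have h3 := hn₁ n hn1
  simp only [Function.comp_apply, id_eq, Real.norm_eq_abs] at h3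
  have hlogn : 0 ≤ Real.log (n : ℝ) := Real.log_nonneg (by exact_mod_cast hn2)
  rw [abs_of_nonneg (by positivity), abs_of_nonneg hnpos.le] at h3
  have h4 : ((Nat.log 2 n : ℕ) : ℝ) ≤ Real.log (n : ℝ) / Real.log 2 := by
    have := Real.natLog_le_logb n 2
    rw [Real.logb] at this
    exact_mod_cast this
  have h5 : (((A * Nat.log 2 n) ^ K : ℕ) : ℝ) < (n : ℝ) := by
    push_cast
    have h6 : ((A : ℝ) * (Nat.log 2 n : ℝ)) ^ K ≤ ((A : ℝ) * (Real.log (n : ℝ) / Real.log 2)) ^ K :=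
      pow_le_pow_left₀ (by positivity) (mul_le_mul_of_nonneg_left h4 (Nat.cast_nonneg _)) _
    have h7 : ((A : ℝ) * (Real.log (n : ℝ) / Real.log 2)) ^ K =
        ((A : ℝ) / Real.log 2) ^ K * Real.log (n : ℝ) ^ K := by
      rw [← mul_pow]
      congr 1
      ring
    have h8 : ((A : ℝ) / Real.log 2) ^ K * Real.log (n : ℝ) ^ K ≤ c * (1 / (2 * c) * (n : ℝ)) := by
      apply mul_le_mul _ h3 (by positivity) hcpos.le
      rw [hc]
      linarith
    have h9 : c * (1 / (2 * c) * (n : ℝ)) = (n : ℝ) / 2 := by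
      field_simp
    rw [h7] at h6
    rw [h9] at h8
    linarith
  exact_mod_cast h5

/-- The number of degree vectors. -/
theorem card_piAntidiag_le {U : Type} [Fintype U] [DecidableEq U] (n : ℕ) :
    (piAntidiag (univ : Finset U) n).card ≤ (n + 1) ^ Fintype.card U := by
  have h1 : piAntidiag (univ : Finset U) n ⊆ Fintype.piFinset fun _ => range (n + 1) := by
    intro m hm
    rw [mem_piAntidiag] at hm
    rw [Fintype.mem_piFinset]
    intro u
    rw [mem_range]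
    have h2 : m u ≤ ∑ v, m v := single_le_sum (f := m) (fun i _ => Nat.zero_le _) (mem_univ u)
    have h3 : ∑ v, m v = n := hm.1
    omega
  refine (card_le_card h1).trans ?_
  rw [Fintype.card_piFinset]
  simp

theorem mem_maxU {ℓ : ℕ} {U : Type} [Fintype U] (Φ : U → U → ZMod ℓ) (M : ℕ) (𝒰 : Finset U) :
    𝒰 ∈ Pool.Agent.Helper54.PT.maxU Φ M ↔ Pool.Agent.Helper54.PT.Unl Φ 𝒰 ∧ 𝒰.card = M := by
  classical
  simp [Pool.Agent.Helper54.PT.maxU]

end Pool.Agent.Helper73.TWB7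

namespace Pool.Agent.Helper54.PT

open Finset Filter Topology

section

variable {ℓ : ℕ} [Fact ℓ.Prime] {σ : Type} [Fintype σ] [DecidableEq σ] (X : PData ℓ σ) {q : ℕ}

section

variable {U : Type} [Fintype U] [DecidableEq U] (Φ : U → U → ZMod ℓ) (M : ℕ)
  (θ : U → Option σ → ZMod ℓ)

/-- B7: assembly (uses B3-B6') -/
theorem key (hX : X.Inputs q) (hM : 1 ≤ M) (hΦ : ∀ u, Φ u u = 0)
    (hmax : ∀ 𝒰 : Finset U, Unl Φ 𝒰 → 𝒰.card ≤ M)
    (b3 : ∀ (m : U → ℕ) (n : ℕ), ∑ u, m u = n → ∀ u u' : U, Φ u u' + Φ u' u ≠ 0 → m u ≤ m u' →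
      ‖X.SS Φ M θ m‖ ^ 4 * (q : ℝ) ^ m u ≤ (n + 1) * (q : ℝ) ^ (4 * n))
    (b4 : ∃ K₀ : ℕ, ∀ K : ℕ, K₀ ≤ K → Tendsto (fun n : ℕ =>
      (∑ m ∈ (piAntidiag (univ : Finset U) n).filter (fun m =>
          (univ.filter fun u => n ≤ m u ^ K).card < M),
        ∑ D ∈ X.tup m, ((M : ℝ)⁻¹) ^ (∑ u, (D u).card)) / (q : ℝ) ^ n) atTop (𝓝 0))
    (b5 : ∀ A K B : ℕ, ∃ n₀ : ℕ, ∀ n, n₀ ≤ n → ∀ 𝒰 ∈ maxU Φ M, ∀ m : U → ℕ, ∑ u, m u = n →
      (∀ u ∈ 𝒰, n ≤ m u ^ K) → (∀ u ∉ 𝒰, m u ≤ A * Nat.log 2 n) → (∃ u, u ∉ 𝒰 ∧ m u ≠ 0) →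
        ‖X.SS Φ M θ m‖ * (n : ℝ) ^ B ≤ (q : ℝ) ^ n)
    (b6 : ∀ 𝒰 : Finset U, Unl Φ 𝒰 → ∀ n : ℕ,
      ∑ m ∈ (piAntidiag (univ : Finset U) n).filter (fun m => ∀ u, u ∉ 𝒰 → m u = 0),
        X.SS Φ M θ m = X.ZU M θ 𝒰 n)
    (b6' : ∀ m : U → ℕ,
      ‖X.SS Φ M θ m‖ ≤ ∑ D ∈ X.tup m, ((M : ℝ)⁻¹) ^ (∑ u, (D u).card)) :
    Tendsto (fun n : ℕ => (X.ZZ Φ M θ n - ∑ 𝒰 ∈ maxU Φ M, X.ZU M θ 𝒰 n) / (q : ℂ) ^ n)
      atTop (𝓝 0) := by
  obtain ⟨K₀, hK₀⟩ := b4
  set K : ℕ := max K₀ 1 with hK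
  have hK1 : 1 ≤ K := le_max_right _ _
  have h4 := hK₀ K (le_max_left _ _)
  set N : ℕ := Fintype.card U with hN
  set A : ℕ := 4 * (N + 2) with hA
  obtain ⟨n₀, hn₀⟩ := b5 A K (N + 1)
  obtain ⟨n₁, hn₁⟩ := Pool.Agent.Helper73.TWB7.log_pow_lt A K
  set C0 : ℝ := 1 + ((maxU Φ M).card : ℝ) with hC0
  have hC0pos : 0 < C0 := by positivity
  set C1 : ℝ := 2 ^ (A + 1) with hC1
  have hC1pos : 0 < C1 := by positivity
  have hq2 : (2 : ℝ) ≤ (q : ℝ) := by exact_mod_cast hX.two_le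
  have hqpos : (0 : ℝ) < (q : ℝ) := by linarith
  -- the counting function
  let c : (U → ℕ) → ℕ := fun m =>
    ((maxU Φ M).filter fun 𝒰 => ∀ u, u ∉ 𝒰 → m u = 0).card
  have hcle : ∀ m, ‖(1 : ℂ) - (c m : ℂ)‖ ≤ C0 := by
    intro m
    have h1 : (c m : ℝ) ≤ ((maxU Φ M).card : ℝ) := by
      exact_mod_cast card_filter_le _ _
    calc ‖(1 : ℂ) - (c m : ℂ)‖ ≤ ‖(1 : ℂ)‖ + ‖(c m : ℂ)‖ := norm_sub_le _ _
      _ = 1 + (c m : ℝ) := by simp
      _ ≤ C0 := by rw [hC0]; linarith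
  have hid : ∀ n, X.ZZ Φ M θ n - ∑ 𝒰 ∈ maxU Φ M, X.ZU M θ 𝒰 n =
      ∑ m ∈ piAntidiag (univ : Finset U) n, (1 - (c m : ℂ)) * X.SS Φ M θ m := by
    intro n
    have h1 : ∑ 𝒰 ∈ maxU Φ M, X.ZU M θ 𝒰 n =
        ∑ m ∈ piAntidiag (univ : Finset U) n, (c m : ℂ) * X.SS Φ M θ m := by
      have h2 : ∀ 𝒰 ∈ maxU Φ M, X.ZU M θ 𝒰 n = ∑ m ∈ piAntidiag (univ : Finset U) n,
          if (∀ u, u ∉ 𝒰 → m u = 0) then X.SS Φ M θ m else 0 := by
        intro 𝒰 h𝒰
        rw [Pool.Agent.Helper73.TWB7.mem_maxU] at h𝒰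
        rw [← b6 𝒰 h𝒰.1 n, sum_filter]
      rw [sum_congr rfl h2, sum_comm]
      refine sum_congr rfl fun m _ => ?_
      rw [← sum_filter, sum_const, nsmul_eq_mul]
    rw [h1, PData.ZZ, ← sum_sub_distrib]
    refine sum_congr rfl fun m _ => ?_
    ring
  -- the terms which are small one by one
  have hsmall : ∀ n, n₀ ≤ n → n₁ ≤ n → 1 ≤ n → ∀ m ∈ piAntidiag (univ : Finset U) n,
      ¬ ((univ.filter fun u => n ≤ m u ^ K).card < M) →
      ‖(1 - (c m : ℂ)) * X.SS Φ M θ m‖ ≤ C0 * (C1 * (q : ℝ) ^ n / (n : ℝ) ^ (N + 1)) := by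
    intro n hn0 hn1' hnge m hm hlarge
    have hnpos : (0 : ℝ) < (n : ℝ) := by exact_mod_cast hnge
    have hn1R : (1 : ℝ) ≤ (n : ℝ) := by exact_mod_cast hnge
    have hsum : ∑ u, m u = n := by
      rw [mem_piAntidiag] at hm
      exact hm.1
    have hlarge' : M ≤ (univ.filter fun u => n ≤ m u ^ K).card := not_lt.1 hlarge
    have hC1one : (1 : ℝ) ≤ C1 := one_le_pow₀ (by norm_num)
    -- it suffices to bound `SS`
    have hred : ‖X.SS Φ M θ m‖ * (n : ℝ) ^ (N + 1) ≤ C1 * (q : ℝ) ^ n →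
        ‖(1 - (c m : ℂ)) * X.SS Φ M θ m‖ ≤ C0 * (C1 * (q : ℝ) ^ n / (n : ℝ) ^ (N + 1)) := by
      intro h
      rw [norm_mul]
      refine mul_le_mul (hcle m) ?_ (norm_nonneg _) hC0pos.le
      rw [le_div_iff₀ (by positivity)]
      exact h
    by_cases hlink : ∃ u u', Φ u u' + Φ u' u ≠ 0 ∧ A * Nat.log 2 n < m u ∧
        A * Nat.log 2 n < m u'
    · -- two linked indices of large degree
      apply hred
      obtain ⟨u, u', hne, hu, hu'⟩ := hlink
      have hmain : ∀ a b : U, Φ a b + Φ b a ≠ 0 → A * Nat.log 2 n < m a → m a ≤ m b →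
          ‖X.SS Φ M θ m‖ * (n : ℝ) ^ (N + 1) ≤ C1 * (q : ℝ) ^ n := by
        intro a b hab ha hle
        have h1 := b3 m n hsum a b hab hle
        have h2 : (n : ℝ) ^ A ≤ 2 ^ A * (q : ℝ) ^ m a := by
          have h3 : (n : ℝ) ≤ 2 * 2 ^ Nat.log 2 n := by
            have h4 : n < 2 ^ (Nat.log 2 n + 1) := Nat.lt_pow_succ_log_self (by norm_num) n
            have h5 : n ≤ 2 * 2 ^ Nat.log 2 n := by
              rw [pow_succ] at h4
              omega
            exact_mod_cast h5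
          calc (n : ℝ) ^ A ≤ (2 * 2 ^ Nat.log 2 n) ^ A := pow_le_pow_left₀ hnpos.le h3 _
            _ = 2 ^ A * 2 ^ (A * Nat.log 2 n) := by
                rw [mul_pow, ← pow_mul, mul_comm (Nat.log 2 n) A]
            _ ≤ 2 ^ A * (q : ℝ) ^ m a := by
                refine mul_le_mul_of_nonneg_left ?_ (by positivity)
                calc (2 : ℝ) ^ (A * Nat.log 2 n) ≤ 2 ^ m a :=
                      pow_le_pow_right₀ (by norm_num) ha.le
                  _ ≤ (q : ℝ) ^ m a := pow_le_pow_left₀ (by norm_num) hq2 _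
        have h6 : ‖X.SS Φ M θ m‖ ^ 4 * (n : ℝ) ^ A ≤ 2 ^ A * ((n + 1) * (q : ℝ) ^ (4 * n)) := by
          calc ‖X.SS Φ M θ m‖ ^ 4 * (n : ℝ) ^ A ≤
                ‖X.SS Φ M θ m‖ ^ 4 * (2 ^ A * (q : ℝ) ^ m a) :=
                mul_le_mul_of_nonneg_left h2 (by positivity)
            _ = 2 ^ A * (‖X.SS Φ M θ m‖ ^ 4 * (q : ℝ) ^ m a) := by ring
            _ ≤ _ := mul_le_mul_of_nonneg_left h1 (by positivity)
        have h7 : (‖X.SS Φ M θ m‖ * (n : ℝ) ^ (N + 1)) ^ 4 * (n : ℝ) ^ 4 ≤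
            (C1 * (q : ℝ) ^ n) ^ 4 * (n : ℝ) ^ 4 := by
          have e1 : (‖X.SS Φ M θ m‖ * (n : ℝ) ^ (N + 1)) ^ 4 * (n : ℝ) ^ 4 =
              ‖X.SS Φ M θ m‖ ^ 4 * (n : ℝ) ^ A := by
            rw [hA]
            ring
          rw [e1]
          refine h6.trans ?_
          have e2 : (C1 * (q : ℝ) ^ n) ^ 4 * (n : ℝ) ^ 4 =
              (C1 ^ 4 * (n : ℝ) ^ 4) * (q : ℝ) ^ (4 * n) := by
            ring
          rw [e2, ← mul_assoc]
          refine mul_le_mul_of_nonneg_right ?_ (by positivity)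
          have h8 : (n : ℝ) + 1 ≤ 2 * (n : ℝ) ^ 4 := by
            have h9 : (n : ℝ) ≤ (n : ℝ) ^ 4 := le_self_pow₀ hn1R (by norm_num)
            linarith
          calc (2 : ℝ) ^ A * ((n : ℝ) + 1) ≤ 2 ^ A * (2 * (n : ℝ) ^ 4) :=
                mul_le_mul_of_nonneg_left h8 (by positivity)
            _ = C1 * (n : ℝ) ^ 4 := by rw [hC1, pow_succ]; ring
            _ ≤ C1 ^ 4 * (n : ℝ) ^ 4 := by
                refine mul_le_mul_of_nonneg_right ?_ (by positivity)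
                exact le_self_pow₀ hC1one (by norm_num)
        have h10 : (‖X.SS Φ M θ m‖ * (n : ℝ) ^ (N + 1)) ^ 4 ≤ (C1 * (q : ℝ) ^ n) ^ 4 :=
          le_of_mul_le_mul_right h7 (by positivity)
        exact le_of_pow_le_pow_left₀ (by norm_num) (by positivity) h10
      rcases le_total (m u) (m u') with hle | hle
      · exact hmain u u' hne hu hle
      · refine hmain u' u ?_ hu' hle
        rw [add_comm]
        exact hne
    · -- the large indices form a maximal unlinked set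
      push Not at hlink
      set 𝒯 : Finset U := univ.filter fun u => A * Nat.log 2 n < m u with h𝒯
      have hunl : Unl Φ 𝒯 := by
        intro u hu u' hu'
        rw [h𝒯, mem_filter] at hu hu'
        by_contra hne
        exact absurd hu'.2 (not_lt.2 (hlink u u' hne hu.2))
      have hsub : (univ.filter fun u => n ≤ m u ^ K) ⊆ 𝒯 := by
        intro u hu
        rw [mem_filter] at hu
        rw [h𝒯, mem_filter]
        refine ⟨mem_univ _, ?_⟩
        by_contra hcon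
        have h1 : m u ^ K ≤ (A * Nat.log 2 n) ^ K := Nat.pow_le_pow_left (not_lt.1 hcon) K
        have h2 := hn₁ n hn1'
        have h3 := hu.2
        omega
      have hcard : 𝒯.card = M := le_antisymm (hmax _ hunl) (hlarge'.trans (card_le_card hsub))
      have heq : (univ.filter fun u => n ≤ m u ^ K) = 𝒯 :=
        eq_of_subset_of_card_le hsub (by rw [hcard]; exact hlarge')
      have h𝒯max : 𝒯 ∈ maxU Φ M := by
        rw [Pool.Agent.Helper73.TWB7.mem_maxU]
        exact ⟨hunl, hcard⟩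
      have hbig : ∀ u ∈ 𝒯, n ≤ m u ^ K := by
        intro u hu
        rw [← heq, mem_filter] at hu
        exact hu.2
      have hlow : ∀ u ∉ 𝒯, m u ≤ A * Nat.log 2 n := by
        intro u hu
        by_contra hcon
        apply hu
        rw [h𝒯, mem_filter]
        exact ⟨mem_univ _, not_le.1 hcon⟩
      by_cases hex : ∃ u, u ∉ 𝒯 ∧ m u ≠ 0
      · apply hred
        refine (hn₀ n hn0 𝒯 h𝒯max m hsum hbig hlow hex).trans ?_
        exact le_mul_of_one_le_left (by positivity) hC1one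
      · -- the main terms
        push Not at hex
        have hc1 : c m = 1 := by
          show ((maxU Φ M).filter fun 𝒰 => ∀ u, u ∉ 𝒰 → m u = 0).card = 1
          rw [card_eq_one]
          refine ⟨𝒯, ?_⟩
          ext 𝒰
          rw [mem_filter, mem_singleton]
          constructor
          · rintro ⟨h1, h2⟩
            rw [Pool.Agent.Helper73.TWB7.mem_maxU] at h1
            have h3 : 𝒯 ⊆ 𝒰 := by
              intro u hu
              by_contra hcon
              have h5 := hbig u hu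
              rw [h2 u hcon, zero_pow (by omega)] at h5
              omega
            exact (eq_of_subset_of_card_le h3 (by rw [hcard, h1.2])).symm
          · rintro rfl
            exact ⟨h𝒯max, hex⟩
        rw [hc1]
        simp only [Nat.cast_one, sub_self, zero_mul, norm_zero]
        positivity
  -- the bound
  have hbound : ∀ᶠ n : ℕ in atTop,
      ‖(X.ZZ Φ M θ n - ∑ 𝒰 ∈ maxU Φ M, X.ZU M θ 𝒰 n) / (q : ℂ) ^ n‖ ≤
      C0 * ((∑ m ∈ (piAntidiag (univ : Finset U) n).filter (fun m =>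
          (univ.filter fun u => n ≤ m u ^ K).card < M),
        ∑ D ∈ X.tup m, ((M : ℝ)⁻¹) ^ (∑ u, (D u).card)) / (q : ℝ) ^ n) +
      C0 * C1 * 2 ^ N * (1 / (n : ℝ)) := by
    filter_upwards [eventually_ge_atTop n₀, eventually_ge_atTop n₁, eventually_ge_atTop 1]
      with n hn0 hn1' hnge
    have hnpos : (0 : ℝ) < (n : ℝ) := by exact_mod_cast hnge
    have hn1R : (1 : ℝ) ≤ (n : ℝ) := by exact_mod_cast hnge
    rw [norm_div, norm_pow, Complex.norm_natCast, div_le_iff₀ (by positivity), hid n]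
    refine (norm_sum_le _ _).trans ?_
    rw [← sum_filter_add_sum_filter_not (piAntidiag (univ : Finset U) n) (fun m =>
          (univ.filter fun u => n ≤ m u ^ K).card < M), add_mul]
    refine add_le_add ?_ ?_
    · have e1 : C0 * ((∑ m ∈ (piAntidiag (univ : Finset U) n).filter (fun m =>
          (univ.filter fun u => n ≤ m u ^ K).card < M),
          ∑ D ∈ X.tup m, ((M : ℝ)⁻¹) ^ (∑ u, (D u).card)) / (q : ℝ) ^ n) * (q : ℝ) ^ n =
          C0 * (∑ m ∈ (piAntidiag (univ : Finset U) n).filter (fun m =>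
          (univ.filter fun u => n ≤ m u ^ K).card < M),
          ∑ D ∈ X.tup m, ((M : ℝ)⁻¹) ^ (∑ u, (D u).card)) := by
        have hqn : (q : ℝ) ^ n ≠ 0 := by positivity
        rw [mul_assoc, div_mul_cancel₀ _ hqn]
      rw [e1, mul_sum]
      refine sum_le_sum fun m _ => ?_
      rw [norm_mul]
      exact mul_le_mul (hcle m) (b6' m) (norm_nonneg _) hC0pos.le
    · have h1 : ∀ m ∈ (piAntidiag (univ : Finset U) n).filter (fun m =>
          ¬ (univ.filter fun u => n ≤ m u ^ K).card < M),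
          ‖(1 - (c m : ℂ)) * X.SS Φ M θ m‖ ≤ C0 * (C1 * (q : ℝ) ^ n / (n : ℝ) ^ (N + 1)) := by
        intro m hm
        rw [mem_filter] at hm
        exact hsmall n hn0 hn1' hnge m hm.1 hm.2
      refine (sum_le_card_nsmul _ _ _ h1).trans ?_
      rw [nsmul_eq_mul]
      have h2 : (((piAntidiag (univ : Finset U) n).filter (fun m =>
          ¬ (univ.filter fun u => n ≤ m u ^ K).card < M)).card : ℝ) ≤ 2 ^ N * (n : ℝ) ^ N := by
        have h3 : (((piAntidiag (univ : Finset U) n).filter (fun m =>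
          ¬ (univ.filter fun u => n ≤ m u ^ K).card < M)).card : ℝ) ≤ ((n + 1 : ℕ) : ℝ) ^ N := by
          exact_mod_cast (card_filter_le _ _).trans
            (Pool.Agent.Helper73.TWB7.card_piAntidiag_le n)
        refine h3.trans ?_
        rw [← mul_pow]
        refine pow_le_pow_left₀ (by positivity) ?_ _
        push_cast
        linarith
      refine (mul_le_mul_of_nonneg_right h2 (by positivity)).trans (le_of_eq ?_)
      have hnN : (n : ℝ) ^ N ≠ 0 := by positivity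
      have hn0' : (n : ℝ) ≠ 0 := by positivity
      clear_value C0 C1
      rw [pow_succ]
      field_simp
  refine squeeze_zero_norm' hbound ?_
  have h5 : Tendsto (fun n : ℕ => C0 * C1 * 2 ^ N * (1 / (n : ℝ))) atTop (𝓝 0) := by
    have := tendsto_one_div_atTop_nhds_zero_nat (𝕜 := ℝ)
    have h6 := this.const_mul (C0 * C1 * 2 ^ N)
    rwa [mul_zero] at h6
  have h7 := (h4.const_mul C0).add h5
  rwa [mul_zero, zero_add] at h7

end

end

end Pool.Agent.Helper54.PT
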